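import Pool.Agent.P8H28.AD.Defs

/-!
# Project AD (helper28), package PRJ: the symmetric bilinear form on the tensors with two indices
-/

set_option autoImplicit false

namespace Pool.Agent.P8H88.AD

open Matrix
open Pool.Agent.W528.ZC Pool.Agent.P8H28.QF Pool.Agent.P8H28.AD

variable {ι : Type} [Fintype ι] [DecidableEq ι]

theorem cj_mul (M N : Matrix ι ι ℂ) : cj (M * N) = cj M * cj N := by
  unfold cj
  exact Matrix.map_mul

theorem cj_cj (M : Matrix ι ι ℂ) : cj (cj M) = M := by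
  ext a b
  simp [cj]

theorem cj_mapQ (M : Matrix ι ι ℚ) : cj (mapQ ℂ M) = mapQ ℂ M := by
  ext a b
  simp [cj, mapQ]

theorem tens_transpose (M : Matrix ι ι ℂ) : (tens 2 M).transpose = tens 2 M.transpose := by
  ext a b
  rfl

theorem tens_scalar (κ : ℂ) : tens 2 (Matrix.diagonal fun _ : ι => κ) = κ ^ 2 • 1 := by
  have h1 : (Matrix.diagonal fun _ : ι => κ) = κ • (1 : Matrix ι ι ℂ) := by
    rw [Matrix.smul_one_eq_diagonal]
  rw [h1, ← tens_one (ι := ι) 2 (k := ℂ)]
  ext a b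
  simp only [tens_apply, Matrix.smul_apply, smul_eq_mul, Fin.prod_univ_two]
  ring

theorem prj : S_PRJ := by
  intro ι _ _ w ψ B p hB hD u hu
  obtain ⟨v, hv⟩ : ∃ v : (Fin 2 → ι) → ℂ, v = fun a => ((u a : ℚ) : ℂ) := ⟨_, rfl⟩
  rw [← hv] at hu
  have hvr : ∀ a, (starRingEnd ℂ) (v a) = v a := by
    intro a
    rw [hv]
    simp
  obtain ⟨c, hc⟩ : ∃ c : (Fin 2 → ι) → ℂ, c = (tens 2 B⁻¹).mulVec v := ⟨_, rfl⟩
  have hBc : (tens 2 B).mulVec c = v := by
    rw [hc, Matrix.mulVec_mulVec, ← tens_mul, Matrix.mul_nonsing_inv _ hB, tens_one,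
      Matrix.one_mulVec]
  have hcjB : (tens 2 (cj B)).mulVec (fun a => (starRingEnd ℂ) (c a)) = v := by
    funext a
    have h1 := congrFun hBc a
    rw [← hvr a, ← h1]
    simp only [Matrix.mulVec, dotProduct, map_sum, map_mul, tens_apply, Fin.prod_univ_two, cj,
      Matrix.map_apply]
  -- the conjugate of the orthonormality
  have hD' : (cj B).transpose * mapQ ℂ ψ * B =
      Matrix.diagonal (fun a => (starRingEnd ℂ) (Complex.I ^ (w - 2 * p a))) := by
    have h1 := congrArg cj hD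
    rw [cj_mul, cj_mul, cj_mapQ, cj_cj] at h1
    have h2 : cj (B.transpose) = (cj B).transpose := by
      ext a b; rfl
    rw [h2] at h1
    rw [h1]
    ext a b
    by_cases hab : a = b
    · subst hab
      simp [cj]
    · simp [cj, Matrix.diagonal_apply_ne _ hab]
  have hI : ∀ a : ι, (starRingEnd ℂ) (Complex.I ^ (w - 2 * p a)) * (-1 : ℂ) ^ p a = (-Complex.I) ^ w := by
    intro a
    have h1 : (-Complex.I) ≠ 0 := neg_ne_zero.2 Complex.I_ne_zero
    rw [map_zpow₀, Complex.conj_I, zpow_sub₀ h1, _root_.zpow_mul]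
    have h2 : (-Complex.I) ^ (2 : ℤ) = -1 := by
      rw [zpow_ofNat]
      simp
    rw [h2, div_mul_cancel₀ _ (zpow_ne_zero _ (by norm_num))]
  have hmat : (cj B).transpose * mapQ ℂ ψ * (B * Matrix.diagonal (fun a => ((-1 : ℂ) ^ p a))) =
      Matrix.diagonal fun _ : ι => (-Complex.I) ^ w := by
    rw [← Matrix.mul_assoc, hD', Matrix.diagonal_mul_diagonal]
    congr 1
    funext a
    exact hI a
  have h1 : (tens 2 (weil B p)).mulVec v =
      (tens 2 (B * Matrix.diagonal (fun a => ((-1 : ℂ) ^ p a)))).mulVec c := by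
    unfold weil
    rw [hc, Matrix.mulVec_mulVec, ← tens_mul]
  have h2 : v ⬝ᵥ ((tens 2 (mapQ ℂ ψ)).mulVec ((tens 2 (weil B p)).mulVec v)) =
      ((-Complex.I) ^ w) ^ 2 * ∑ a, (starRingEnd ℂ) (c a) * c a := by
    rw [h1]
    conv_lhs => rw [← hcjB]
    rw [← Matrix.vecMul_transpose, ← Matrix.dotProduct_mulVec, tens_transpose, Matrix.mulVec_mulVec,
      Matrix.mulVec_mulVec, ← tens_mul, ← tens_mul, hmat, tens_scalar, Matrix.smul_mulVec,
      Matrix.one_mulVec]
    simp only [dotProduct, Pi.smul_apply, smul_eq_mul, Finset.mul_sum]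
    refine Finset.sum_congr rfl fun a _ => ?_
    ring
  rw [h2] at hu
  have hne : ((-Complex.I) ^ w) ^ 2 ≠ 0 :=
    pow_ne_zero _ (zpow_ne_zero _ (neg_ne_zero.2 Complex.I_ne_zero))
  have h3 : ∑ a, (starRingEnd ℂ) (c a) * c a = 0 := (mul_eq_zero.1 hu).resolve_left hne
  have h4 : ∑ a, Complex.normSq (c a) = 0 := by
    have h5 : ((∑ a, Complex.normSq (c a) : ℝ) : ℂ) = 0 := by
      rw [Complex.ofReal_sum, ← h3]
      exact Finset.sum_congr rfl fun a _ => Complex.normSq_eq_conj_mul_self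
    exact_mod_cast h5
  have h5 : c = 0 := by
    funext a
    have h6 := (Finset.sum_eq_zero_iff_of_nonneg fun a _ => Complex.normSq_nonneg (c a)).1 h4 a
      (Finset.mem_univ a)
    exact Complex.normSq_eq_zero.1 h6
  rw [h5, Matrix.mulVec_zero] at hBc
  funext a
  have h6 := congrFun hBc a
  rw [hv] at h6
  have h7 : ((u a : ℚ) : ℂ) = 0 := h6.symm
  exact_mod_cast h7

end Pool.Agent.P8H88.AD
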